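import Pool.Agent.TH504.VY.Defs
import Pool.Agent.R299.NCH.Defs

/-!
# The noncommutative variational Hodge conjecture for `D(A) ⊠ 𝒟`: definitions

Let `Y → B` be a family of smooth proper varieties over (the universal covering of) the base. Its
topological K-theory is trivialized, it is the rational space `ℚ ^ v`, and its Hodge structure at `b` is
given by the Hodge operator of `Y b : Coh v`. A linear admissible subcategory `𝒟` of the category
of perfect complexes on `Y` is given by the projector `P` of the topological K-theory defined by the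
projection functor onto `𝒟`; it is flat, so that it does not depend on `b`, and commutes with all
Hodge operators. The flat sections of the topological K-theory of `𝒟` are the vectors `x` with `P x = x`.
-/

set_option autoImplicit false

namespace Pool.Agent.Zk51.NV

open Matrix Module Pool.Agent.H204R3.CM Pool.Agent.TH131.GHC Pool.Agent.TH504.VY
  Pool.Agent.R299.NCH

noncomputable section

/-- Through each point `b` of `B` there is a connected complex manifold (an open set `U` of a space
`ℂ ^ d`, mapped to `B`) along which the Hodge structure of the category `𝒟`, with projector `P`, is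
constant and all the families `Z i` are moving. The Hodge structure of the ambient family `Y` need not
be constant. -/
def MovesRelativeTo {ι B : Type} {g : ι → ℕ} {v : ℕ}
    (Z : ∀ i, B → Matrix (Fin (g i)) (Fin (g i)) ℂ) (Y : B → Coh v)
    (P : Matrix (Fin v) (Fin v) ℚ) : Prop :=
  ∀ b, ∃ (d : ℕ) (U : Set (Fin d → ℂ)) (φ : (Fin d → ℂ) → B), IsOpen U ∧ IsPreconnected U ∧
    b ∈ φ '' U ∧ (∀ t ∈ U, (Y (φ t)).z * cm P = (Y b).z * cm P) ∧
    ∀ i, IsMovingFamily U (fun t => Z i (φ t))

section cycles

variable {B W T : Type} [AddCommGroup W] [Module ℚ W] [AddCommGroup T] [Module ℂ T]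

/-- The span of the products `f ⊗ x` of classes `f` and `x` such that `f` is a combination of
products of divisor classes on all `A_b` and `x` is a Hodge class of all `𝒟_b`. -/
def boxClasses (per : B → W →+ T) {v : ℕ} (Y : B → Coh v) (P : Matrix (Fin v) (Fin v) ℚ) :
    Submodule ℚ (HAZ W v) :=
  Submodule.span ℚ {G | ∃ (k : ℕ) (f : W [⋀^Fin k]→ₗ[ℚ] ℚ) (x : Fin v → ℚ),
    (∀ b, f ∈ divisorSpan (per b) k) ∧ (∀ b, IsHodgeD (Y b) P x) ∧ G = cross f x}

/-- Each flat class of `D(A) ⊠ 𝒟` which is a Hodge class of all `D(A_b) ⊠ 𝒟_b` is a sum of products of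
classes `f ⊗ x` as in `boxClasses`. -/
def HodgeClassesAreBoxes (per : B → W →+ T) {v : ℕ} (Y : B → Coh v)
    (P : Matrix (Fin v) (Fin v) ℚ) : Prop :=
  ∀ F, (∀ b, IsHodgeAD (per b) (Y b) P F) → F ∈ boxClasses per Y P

/-- The noncommutative variational Hodge conjecture for `𝒟`: a flat class which is a Hodge class of all
`𝒟_b` and is a combination of classes of objects of one `𝒟_b` is such a combination for all `b`. -/
def NCVHC {v : ℕ} (Y : B → Coh v) (P : Matrix (Fin v) (Fin v) ℚ)
    (algD : B → Submodule ℚ (Fin v → ℚ)) : Prop :=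
  Variational (fun b x => IsHodgeD (Y b) P x) algD

/-- The noncommutative variational Hodge conjecture for `D(A) ⊠ 𝒟`. -/
def NCVHCBox (per : B → W →+ T) {v : ℕ} (Y : B → Coh v) (P : Matrix (Fin v) (Fin v) ℚ)
    (alg : B → Submodule ℚ (HAZ W v)) : Prop :=
  Variational (fun b F => IsHodgeAD (per b) (Y b) P F) alg

end cycles

end

end Pool.Agent.Zk51.NV
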