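import Pool.Agent.TH504.VY.Main
import Pool.Agent.R299.NCH.Main
import Pool.Agent.Zk51.NV.Defs

/-!
# The noncommutative variational Hodge conjecture for `D(A) ⊠ 𝒟`, for moving families `A`
-/

set_option autoImplicit false
set_option linter.unusedSectionVars false

namespace Pool.Agent.Zk51.NV

open Matrix Module Pool.Agent.H204R3.CM Pool.Agent.TH131.GHC Pool.Agent.TH504.VY
  Pool.Agent.R299.NCH

noncomputable section

variable {B W T : Type} [AddCommGroup W] [Module ℚ W] [AddCommGroup T] [Module ℂ T] {v : ℕ}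

/-- The matrix as a linear map. -/
def mv {m n : ℕ} (A : Matrix (Fin m) (Fin n) ℚ) : (Fin n → ℚ) →ₗ[ℚ] (Fin m → ℚ) :=
  Matrix.mulVecLin A

theorem fibreIntegral_app {m n k j : ℕ} (A : Matrix (Fin m) (Fin n) ℚ)
    (e : Basis (Fin k ⊕ Fin j) ℚ W) (F : HAZ W n) (β : W [⋀^Fin j]→ₗ[ℚ] ℚ) :
    fibreIntegral e (app A F) β = A *ᵥ fibreIntegral e F β := by
  change _ = mv A (fibreIntegral e F β)
  unfold fibreIntegral
  rw [map_sum]
  refine Finset.sum_congr rfl fun σ _ => ?_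
  rw [map_zsmul, map_smul]
  rfl

/-- The cycle system of the Hodge structure of the category. -/
def pullSystem {P : Matrix (Fin v) (Fin v) ℚ} (S : Split P) {per : B → W →+ T}
    (C : CycleSystem per v) : CycleSystem per S.r where
  alg b := (C.alg b).comap (appL W S.M)
  algY b := (C.algY b).comap (mv S.M)
  cross_mem := by
    intro b k f hf x hx
    change app S.M (cross f x) ∈ C.alg b
    rw [app_cross]
    exact C.cross_mem b k f hf _ hx
  integral_mem := by
    intro b F hF k j e β hβ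
    change S.M *ᵥ fibreIntegral e F β ∈ C.algY b
    rw [← fibreIntegral_app]
    exact C.integral_mem b _ hF k j e β hβ

theorem app_split {P : Matrix (Fin v) (Fin v) ℚ} (S : Split P) {F : HAZ W v}
    (hF : ∀ (k : ℕ) (w : Fin k → W), P *ᵥ F k w = F k w) : app S.M (app S.N F) = F := by
  funext k
  ext w : 1
  change S.M *ᵥ (S.N *ᵥ F k w) = F k w
  rw [Matrix.mulVec_mulVec, S.MN, hF]

theorem moves {ι : Type} {g : ι → ℕ} {Z : ∀ i, B → Matrix (Fin (g i)) (Fin (g i)) ℂ}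
    {Y : B → Coh v} {P : Matrix (Fin v) (Fin v) ℚ} (hP : ∀ b, IsProjector (Y b) P) (S : Split P)
    (h : MovesRelativeTo Z Y P) : MovesRelative Z (fun b => restrict (Y b) (hP b) S) := by
  intro b
  obtain ⟨d, U, φ, hU, hc, hb, hY, hm⟩ := h b
  refine ⟨d, U, φ, hU, hc, hb, fun t ht => ?_, hm⟩
  change cm S.N * (Y (φ t)).z * cm S.M = cm S.N * (Y b).z * cm S.M
  have h1 : cm S.M = cm P * cm S.M := by rw [← cm_mul, PM]
  rw [h1, Matrix.mul_assoc (cm S.N), ← Matrix.mul_assoc (Y (φ t)).z, hY t ht,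
    Matrix.mul_assoc (cm S.N), ← Matrix.mul_assoc (Y b).z]

theorem hodgeD_of_restrict {V : Coh v} {P : Matrix (Fin v) (Fin v) ℚ} (hP : IsProjector V P)
    (S : Split P) {x : Fin S.r → ℚ} (hx : IsHodgeOn (restrict V hP S) x) :
    IsHodgeD V P (S.M *ᵥ x) := by
  refine ⟨?_, ?_⟩
  · rw [Matrix.mulVec_mulVec, PM]
  · change V.z *ᵥ cv (S.M *ᵥ x) = 0
    have hx' : (restrict V hP S).z *ᵥ cv x = 0 := hx
    rw [← cm_mulVec, Matrix.mulVec_mulVec, ← Mz hP S, ← Matrix.mulVec_mulVec, hx',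
      Matrix.mulVec_zero]

/-- **The noncommutative variational Hodge conjecture** for `D(A) ⊠ 𝒟`, where `A` is a fibre product of
families of abelian varieties which move relative to `𝒟`. -/
theorem main [Nonempty B] {ι : Type} {g : ι → ℕ}
    (Z : ∀ i, B → Matrix (Fin (g i)) (Fin (g i)) ℂ) {n : ℕ} (c : Fin n → ι) {v : ℕ}
    (Y : B → Coh v) (P : Matrix (Fin v) (Fin v) ℚ) (hP : ∀ b, IsProjector (Y b) P)
    (hmov : MovesRelativeTo Z Y P) :
    HodgeClassesAreBoxes (fibreProduct Z c) Y P ∧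
      ∀ C : CycleSystem (fibreProduct Z c) v, NCVHC Y P C.algY →
        NCVHCBox (fibreProduct Z c) Y P C.alg := by
  obtain ⟨b₁⟩ := ‹Nonempty B›
  obtain ⟨S⟩ := exists_split (hP b₁).idem
  have hmain := @Pool.Agent.TH504.VY.main ι B ⟨b₁⟩ g Z n c S.r
    (fun b => restrict (Y b) (hP b) S) (moves hP S hmov)
  obtain ⟨h1, h2⟩ := hmain
  have hr : ∀ F : HAZ (∀ j, Fin (g (c j)) ⊕ Fin (g (c j)) → ℚ) v,
      (∀ b, IsHodgeAD (fibreProduct Z c b) (Y b) P F) →
      ∀ b, IsHodgeOnProduct (fibreProduct Z c b) (restrict (Y b) (hP b) S) (app S.N F) :=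
    fun F hF b => hodge_app (fibreProduct Z c b) S.N (Y b) _ (zN (hP b) S) (hF b).2
  refine ⟨fun F hF => ?_, fun C hC F hF b₀ hb₀ b => ?_⟩
  · have h3 := h1 (app S.N F) (hr F hF)
    have h4 : F = appL _ S.M (app S.N F) := (app_split S (hF b₁).1).symm
    rw [h4]
    have h5 := Submodule.mem_map_of_mem (f := appL _ S.M) h3
    rw [productClasses, Submodule.map_span] at h5
    refine Submodule.span_mono ?_ h5
    rintro _ ⟨G, ⟨k, f, x, hf, hx, rfl⟩, rfl⟩
    exact ⟨k, f, S.M *ᵥ x, hf, fun b => hodgeD_of_restrict (hP b) S (hx b), app_cross S.M f x⟩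
  · have h3 := h2 (pullSystem S C) ?_ (app S.N F) (hr F hF) b₀ ?_ b
    · have h4 : app S.M (app S.N F) ∈ C.alg b := h3
      rwa [app_split S (hF b₁).1] at h4
    · intro x hx b₀ hx₀ b
      exact hC (S.M *ᵥ x) (fun b => hodgeD_of_restrict (hP b) S (hx b)) b₀ hx₀ b
    · change app S.M (app S.N F) ∈ C.alg b₀
      rwa [app_split S (hF b₁).1]

end

end Pool.Agent.Zk51.NV
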